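import Mathlib
import Pool.Agent.Helper4.Main2

set_option autoImplicit false
open scoped Pointwise

namespace Pool.Agent.Results.MP_ba46be_co.QuadHalf

/-- A nonempty set of density at least `1/2 - ε` has a sumset containing a linear subspace of
codimension at most `200 ε² n + 1`. -/
theorem result :
    ∀ (n : ℕ) (A : Finset (Fin n → ZMod 2)) (ε : ℝ), A.Nonempty → 0 < ε →
      (1 / 2 - ε) * 2 ^ n ≤ (A.card : ℝ) →
      ∃ V : Submodule (ZMod 2) (Fin n → ZMod 2),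
        (n : ℝ) - (Module.finrank (ZMod 2) V : ℝ) ≤ 200 * ε ^ 2 * n + 1 ∧
        (V : Set (Fin n → ZMod 2)) ⊆ ((A + A : Finset (Fin n → ZMod 2)) : Set (Fin n → ZMod 2)) := by
  intro n A ε hA hε hcard
  obtain ⟨V, hV, hV2⟩ := Pool.Agent.Helper4.subspace_in_sumset2 A hA ε hε hcard
    (⌊200 * ε ^ 2 * n⌋₊ + 1) (by
      push_cast
      exact Nat.lt_floor_add_one (200 * ε ^ 2 * n))
  refine ⟨V, ?_, fun v hv => hV2 v hv⟩
  have h1 : (n:ℝ) ≤ (Module.finrank (ZMod 2) V : ℝ) + (⌊200 * ε ^ 2 * n⌋₊ + 1) := by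
    exact_mod_cast hV
  have h2 : (⌊200 * ε ^ 2 * (n:ℝ)⌋₊ : ℝ) ≤ 200 * ε ^ 2 * n := Nat.floor_le (by positivity)
  linarith

end Pool.Agent.Results.MP_ba46be_co.QuadHalf
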